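import Mathlib

namespace Pool.Agent.Results.MP_492578_lc.NotFP

open MonoidAlgebra Matrix

section

variable {M : Type} [Monoid M]

/-- affine extension of `L` -/
noncomputable def hat (L : M → ℝ) (μ : MonoidAlgebra ℝ M) : ℝ := μ.coeff.sum fun w c => c * L w

/-- finitely supported probability distributions -/
def D (M : Type) [Monoid M] : Set (MonoidAlgebra ℝ M) :=
  {μ | (∀ w, 0 ≤ μ.coeff w) ∧ (μ.coeff.sum fun _ c => c) = 1}

/-- the convex combination `x +_r y` -/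
noncomputable def mix (r : ℝ) (x y : MonoidAlgebra ℝ M) : MonoidAlgebra ℝ M := r • x + (1 - r) • y

/-- congruences of the convex monoid `D M` -/
def IsCong (θ : MonoidAlgebra ℝ M → MonoidAlgebra ℝ M → Prop) : Prop :=
  (∀ x ∈ D M, θ x x) ∧ (∀ x y, θ x y → θ y x) ∧ (∀ x y z, θ x y → θ y z → θ x z) ∧
    ∀ x x' y y', θ x x' → θ y y' →
      θ (x * y) (x' * y') ∧ ∀ r ∈ Set.Icc (0 : ℝ) 1, θ (mix r x y) (mix r x' y')

/-- the congruence generated by `R` -/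
def Gen (R : Set (MonoidAlgebra ℝ M × MonoidAlgebra ℝ M)) (x y : MonoidAlgebra ℝ M) : Prop :=
  ∀ θ, IsCong θ → (∀ p ∈ R, θ p.1 p.2) → θ x y

/-- the syntactic congruence -/
def Syn (L : M → ℝ) (μ ν : MonoidAlgebra ℝ M) : Prop :=
  ∀ x y : M, hat L (single x 1 * μ * single y 1) = hat L (single x 1 * ν * single y 1)

/-- `φ` induces an isomorphism of convex monoids from `D N / θ` onto `D M / η` -/
def Iso {N : Type} [Monoid N] (θ : MonoidAlgebra ℝ N → MonoidAlgebra ℝ N → Prop)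
    (η : MonoidAlgebra ℝ M → MonoidAlgebra ℝ M → Prop)
    (φ : MonoidAlgebra ℝ N → MonoidAlgebra ℝ M) : Prop :=
  (∀ x ∈ D N, φ x ∈ D M) ∧ η (φ 1) 1 ∧ (∀ ν ∈ D M, ∃ x ∈ D N, η (φ x) ν) ∧
    ∀ x ∈ D N, ∀ y ∈ D N, (θ x y ↔ η (φ x) (φ y)) ∧ η (φ (x * y)) (φ x * φ y) ∧
      ∀ r ∈ Set.Icc (0 : ℝ) 1, η (φ (mix r x y)) (mix r (φ x) (φ y))

end

/-- `L` is computed by a probabilistic finite automaton -/
def PFA {A : Type} (L : FreeMonoid A → ℝ) : Prop :=
  ∃ (n : ℕ) (i o : Fin n → ℝ) (δ : A → Matrix (Fin n) (Fin n) ℝ), i ∈ stdSimplex ℝ (Fin n) ∧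
    (∀ a q, δ a q ∈ stdSimplex ℝ (Fin n)) ∧ (∀ q, o q ∈ Set.Icc (0 : ℝ) 1) ∧
    ∀ w, L w = i ⬝ᵥ (FreeMonoid.lift δ w *ᵥ o)

variable {M : Type} [Monoid M] {f g : M → ℝ} {μ ν : MonoidAlgebra ℝ M}

lemma hat_add : hat f (μ + ν) = hat f μ + hat f ν :=
  Finsupp.sum_add_index' (by simp) (by simp [add_mul])

lemma hat_smul (r : ℝ) : hat f (r • μ) = r * hat f μ := by
  simp [hat, Finsupp.sum_smul_index', Finsupp.mul_sum, mul_assoc]

@[simp] lemma hat_single (w : M) (c : ℝ) : hat f (single w c) = c * f w := by simp [hat]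

@[simp] lemma hat_zero : hat f 0 = 0 := by simp [hat]

lemma hat_mix (r : ℝ) : hat f (mix r μ ν) = r * hat f μ + (1 - r) * hat f ν := by
  rw [mix, hat_add, hat_smul, hat_smul]

lemma hat_lin (a b : ℝ) : hat (fun w => a * f w + b * g w) μ = a * hat f μ + b * hat g μ := by
  simp only [hat, Finsupp.sum, Finset.mul_sum, ← Finset.sum_add_distrib]
  exact Finset.sum_congr rfl fun _ _ => by ring

lemma hat_cmul (a : ℝ) : hat (fun w => a * f w) μ = a * hat f μ := by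
  simpa using hat_lin (f := f) (g := f) (μ := μ) a 0

lemma hat_mul : hat f (μ * ν) = hat (fun w => hat (fun w' => f (w * w')) ν) μ := by
  induction μ using induction_linear with
  | zero => simp
  | add x y hx hy => rw [add_mul, hat_add, hat_add, hx, hy]
  | single w c =>
    induction ν using induction_linear with
    | zero => simp
    | add x y hx hy => simp only [mul_add, hat_add, hx, hy, hat_single]
    | single w' c' => simp [single_mul_single, mul_assoc]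

lemma hat_mul' (hf : ∀ w w', f (w * w') = f w * f w') : hat f (μ * ν) = hat f μ * hat f ν := by
  rw [hat_mul]
  simp only [hf, hat, Finsupp.sum]
  rw [Finset.sum_mul_sum]
  simp only [Finset.mul_sum]
  exact Finset.sum_congr rfl fun _ _ => Finset.sum_congr rfl fun _ _ => by ring

lemma hat_nonneg (h : ∀ w, 0 ≤ μ.coeff w) (hf : ∀ w, 0 ≤ f w) : 0 ≤ hat f μ :=
  Finset.sum_nonneg fun w _ => mul_nonneg (h w) (hf w)

lemma hat_eq_zero (h : ∀ w, 0 ≤ μ.coeff w) (hf : ∀ w, 0 ≤ f w) :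
    hat f μ = 0 ↔ ∀ w ∈ μ.coeff.support, f w = 0 := by
  rw [hat, Finsupp.sum, Finset.sum_eq_zero_iff_of_nonneg fun w _ => mul_nonneg (h w) (hf w)]
  exact forall₂_congr fun w hw => by simp [Finsupp.mem_support_iff.1 hw]

lemma hat_one (h : μ ∈ D M) : hat (fun _ => 1) μ = 1 := by simpa [hat] using h.2

lemma hat_const (h : μ ∈ D M) {s : ℝ} (hf : ∀ w ∈ μ.coeff.support, f w = s) : hat f μ = s := by
  rw [hat, Finsupp.sum_congr (g2 := fun _ c => c * s) fun w hw => by rw [hf w hw],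
    ← Finsupp.sum_mul, h.2, one_mul]

lemma D_single (w : M) : single w (1 : ℝ) ∈ D M := by
  classical
  exact ⟨fun u => by rw [coeff_single, Finsupp.single_apply]; split_ifs <;> norm_num, by simp⟩

lemma D_mix (h : μ ∈ D M) (k : ν ∈ D M) {r : ℝ} (hr : r ∈ Set.Icc (0 : ℝ) 1) :
    mix r μ ν ∈ D M := by
  refine ⟨fun w => add_nonneg (mul_nonneg hr.1 (h.1 w)) (mul_nonneg (sub_nonneg.2 hr.2) (k.1 w)), ?_⟩
  have := hat_mix (f := fun _ => 1) (μ := μ) (ν := ν) r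
  rw [hat_one h, hat_one k] at this
  simpa [hat] using this

lemma D_mul (h : μ ∈ D M) (k : ν ∈ D M) : μ * ν ∈ D M := by
  classical
  refine ⟨fun u => ?_, ?_⟩
  · have : (μ * ν).coeff u = hat (fun w => if w = u then 1 else 0) (μ * ν) := by
      simp [hat, Finsupp.sum, eq_comm]
    rw [this, hat_mul]
    exact hat_nonneg h.1 fun w => hat_nonneg k.1 fun w' => by positivity
  · have := hat_mul' (f := fun _ => 1) (μ := μ) (ν := ν) (by simp)
    rw [hat_one h, hat_one k] at this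
    simpa [hat] using this

lemma affine {F : MonoidAlgebra ℝ M → ℝ} (hF : ∀ x ∈ D M, ∀ y ∈ D M, ∀ r ∈ Set.Icc (0 : ℝ) 1,
    F (mix r x y) = r * F x + (1 - r) * F y) (h : μ ∈ D M) :
    F μ = hat (fun w => F (single w 1)) μ := by
  have : Convex ℝ {x | x ∈ D M ∧ F x = hat (fun w => F (single w 1)) x} := by
    rintro x ⟨hx, ex⟩ y ⟨hy, ey⟩ a b ha hb e
    obtain rfl : b = 1 - a := by linarith
    have : a ∈ Set.Icc (0 : ℝ) 1 := ⟨ha, by linarith⟩
    exact ⟨D_mix hx hy this, (hF x hx y hy a this).trans (by rw [ex, ey]; exact (hat_mix a).symm)⟩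
  have := this.sum_mem (t := μ.coeff.support) (z := fun w => single w 1) (fun w _ => h.1 w) h.2
    fun w _ => ⟨D_single w, by simp⟩
  simp only [MonoidAlgebra.smul_single, smul_eq_mul, mul_one] at this
  rw [show ∑ w ∈ μ.coeff.support, single w (μ.coeff w) = μ from sum_coeff_single μ] at this
  exact this.2

lemma var (h : μ ∈ D M) (s : ℝ) : hat (fun w => g w - f w ^ 2 + (f w - s) ^ 2) μ =
    hat g μ - 2 * s * hat f μ + s ^ 2 := by
  have := hat_lin (f := fun w => 1 * g w + -(2 * s) * f w) (g := fun _ => 1) (μ := μ) 1 (s ^ 2)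
  rw [hat_lin (f := g), hat_one h] at this
  rw [show (fun w => g w - f w ^ 2 + (f w - s) ^ 2) =
    fun w => 1 * (1 * g w + -(2 * s) * f w) + s ^ 2 * 1 from funext fun _ => by ring, this]
  ring

lemma extreme (h : μ ∈ D M) (hg : ∀ w, f w ^ 2 ≤ g w) {s : ℝ} (h1 : hat f μ = s)
    (h2 : hat g μ = s ^ 2) : ∀ w ∈ μ.coeff.support, f w = s ∧ g w = s ^ 2 := by
  intro w hw
  have := (hat_eq_zero h.1 fun w => add_nonneg (sub_nonneg.2 (hg w)) (sq_nonneg (f w - s))).1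
    (by rw [var h, h1, h2]; ring) w hw
  have e : f w = s := by nlinarith [hg w, sq_nonneg (f w - s)]
  exact ⟨e, by rw [e] at this; linarith⟩

noncomputable def p (c : ℝ) (w : FreeMonoid Unit) : ℝ := c ^ w.length

noncomputable def L (w : FreeMonoid Unit) : ℝ := 1 / 2 * p (1 / 2) w + 1 / 2 * p (1 / 4) w

lemma p_mul (c : ℝ) (w w') : p c (w * w') = p c w * p c w' := by simp [p, pow_add]

lemma p_sq (w) : p (1 / 2) w ^ 2 = p (1 / 4) w := by
  rw [p, p, ← pow_mul, mul_comm, pow_mul]; norm_num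

lemma syn_iff {μ ν : MonoidAlgebra ℝ (FreeMonoid Unit)} : Syn L μ ν ↔
    hat (p (1 / 2)) μ = hat (p (1 / 2)) ν ∧ hat (p (1 / 4)) μ = hat (p (1 / 4)) ν := by
  unfold Syn L
  simp only [hat_lin, hat_mul' (p_mul _), hat_single]
  refine ⟨fun h => ?_, fun h x y => by rw [h.1, h.2]⟩
  have h1 := h 1 1
  have h2 := h 1 (.of ())
  simp [p] at h1 h2 ⊢
  constructor <;> linarith

lemma pfa : PFA L := by
  refine ⟨3, ![1 / 2, 1 / 2, 0], ![1, 1, 0], fun _ => !![1 / 2, 0, 1 / 2; 0, 1 / 4, 3 / 4; 0, 0, 1],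
    ⟨fun i => by fin_cases i <;> norm_num, by norm_num [Fin.sum_univ_succ]⟩, fun _ q =>
    ⟨fun i => by fin_cases q <;> fin_cases i <;> norm_num,
      by fin_cases q <;> norm_num [Fin.sum_univ_succ]⟩,
    fun q => by fin_cases q <;> norm_num, fun w => ?_⟩
  have : FreeMonoid.lift (fun _ : Unit => !![1 / 2, 0, 1 / 2; 0, 1 / 4, 3 / 4; 0, 0, (1 : ℝ)]) w *ᵥ
      ![1, 1, 0] = ![p (1 / 2) w, p (1 / 4) w, 0] := by
    induction w using FreeMonoid.inductionOn' with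
    | one => simp [p]
    | of_mul a w ih =>
      rw [map_mul, ← mulVec_mulVec, ih, p_mul, p_mul]
      ext i
      fin_cases i <;> simp [p, mul_comm]
  rw [this]
  simp [L]

theorem core {N : Type} [Monoid N] (R : Set (MonoidAlgebra ℝ N × MonoidAlgebra ℝ N))
    (hR : R.Finite) (hD : ∀ q ∈ R, q.1 ∈ D N ∧ q.2 ∈ D N) (x y : N → ℝ)
    (hx : ∀ w w', x (w * w') = x w * x w') (hy : ∀ w w', y (w * w') = y w * y w')
    (h0 : ∀ w, 0 ≤ x w) (h1 : ∀ w, x w ≤ 1) (h2 : ∀ w, x w ^ 2 ≤ y w)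
    (hs : ∀ n : ℕ, ∃ μ ∈ D N, hat x μ = (1 / 2) ^ n ∧ hat y μ = ((1 / 2) ^ n) ^ 2)
    (hk : ∀ μ ∈ D N, ∀ ν ∈ D N, Gen R μ ν ↔ hat x μ = hat x ν ∧ hat y μ = hat y ν) : False := by
  classical
  have hT : (⋃ q ∈ R, x '' (q.1.coeff.support ∪ q.2.coeff.support)).Finite :=
    hR.biUnion fun q _ => ((Finset.finite_toSet _).union (Finset.finite_toSet _)).image _
  obtain ⟨_, ⟨n, rfl⟩, hn⟩ := (Set.infinite_range_of_injective
    (f := fun n : ℕ => ((1 : ℝ) / 2) ^ (n + 2)) fun a b e => by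
      simpa using pow_right_injective₀ (by norm_num) (by norm_num) e).exists_notMem_finite hT
  obtain ⟨μ0, d0, e0⟩ := hs 0
  obtain ⟨μ1, d1, e1⟩ := hs 1
  obtain ⟨μ2, d2, e2⟩ := hs (n + 2)
  obtain ⟨μ3, d3, e3⟩ := hs (n + 2 + 1)
  rw [pow_succ _ (n + 2)] at e3
  have s0 : 0 < ((1 : ℝ) / 2) ^ (n + 2) := by positivity
  have s1 : ((1 : ℝ) / 2) ^ (n + 2) ≤ (1 / 2) ^ 2 :=
    pow_le_pow_of_le_one (by norm_num) (by norm_num) (by omega)
  simp only [Set.mem_iUnion, not_exists] at hn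
  generalize ((1 : ℝ) / 2) ^ (n + 2) = s at *
  let b : N → ℝ := fun w => if (x w = 1 ∧ y w = 1 ^ 2) ∨ (x w = s ∧ y w = s ^ 2) then 0 else 1
  have b0 (w) : 0 ≤ b w := by simp only [b]; split_ifs <;> norm_num
  have bc (u w w') : b (u * (w * w')) = b (u * w' * w) := by
    simp only [b, hx, hy, mul_assoc, mul_comm]
  let P : N → MonoidAlgebra ℝ N → Prop := fun u μ => hat (fun w => b (u * w)) μ = 0
  have P1 {u μ} (h : μ ∈ D N) : P u μ ↔ ∀ w ∈ μ.coeff.support,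
      (x (u * w) = 1 ∧ y (u * w) = 1 ^ 2) ∨ (x (u * w) = s ∧ y (u * w) = s ^ 2) :=
    (hat_eq_zero h.1 fun _ => b0 _).trans (by simp only [b, ite_eq_left_iff, one_ne_zero,
      imp_false, not_not])
  have P2 {u μ ν} (h : μ ∈ D N) (k : ν ∈ D N) :
      P u (μ * ν) ↔ ∀ w ∈ μ.coeff.support, P (u * w) ν := by
    simp only [P, hat_mul, mul_assoc]
    exact hat_eq_zero h.1 fun w => hat_nonneg k.1 fun _ => b0 _
  have P3 {u μ ν} (h : μ ∈ D N) (k : ν ∈ D N) :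
      P u (μ * ν) ↔ ∀ w ∈ ν.coeff.support, P (u * w) μ := by
    simp only [P2 h k, P, hat_eq_zero h.1 fun _ => b0 _, hat_eq_zero k.1 fun _ => b0 _,
      mul_assoc]
    exact ⟨fun H w hw w' hw' => by rw [bc, mul_assoc]; exact H w' hw' w hw,
      fun H w hw w' hw' => by rw [bc, mul_assoc]; exact H w' hw' w hw⟩
  have P4 {u μ ν r} (h : μ ∈ D N) (k : ν ∈ D N) (hr : r ∈ Set.Icc (0 : ℝ) 1) :
      P u (mix r μ ν) ↔ (r = 0 ∨ P u μ) ∧ (1 - r = 0 ∨ P u ν) := by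
    simp only [P, hat_mix, ← mul_eq_zero]
    exact add_eq_zero_iff_of_nonneg (mul_nonneg hr.1 (hat_nonneg h.1 fun _ => b0 _))
      (mul_nonneg (sub_nonneg.2 hr.2) (hat_nonneg k.1 fun _ => b0 _))
  have P5 {u μ ν} (h : μ ∈ D N) (k : ν ∈ D N) (ex : hat x μ = hat x ν) (ey : hat y μ = hat y ν)
      (hμ : ∀ w ∈ μ.coeff.support, x w ≠ s) (H : P u μ) : P u ν := by
    rw [P1 h] at H
    rw [P1 k]
    have key (t) (ht : ∀ w ∈ μ.coeff.support, x (u * w) = t ∧ y (u * w) = t ^ 2) :=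
      extreme (f := fun w => x (u * w)) (g := fun w => y (u * w)) (s := t) k (fun _ => h2 _)
        (by rw [← hat_const h fun w hw => (ht w hw).1]; simp only [hx, hat_cmul, ex])
        (by rw [← hat_const h fun w hw => (ht w hw).2]; simp only [hy, hat_cmul, ey])
    by_cases c : x u = 1
    · exact fun w hw => .inl (key 1 (fun w hw => (H w hw).resolve_right fun e =>
        hμ w hw (by simpa [hx, c] using e.1)) w hw)
    · refine fun w hw => .inr (key s (fun w hw => (H w hw).resolve_left fun e => c ?_) w hw)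
      have := e.1
      rw [hx] at this
      nlinarith [h0 u, h1 u, h0 w, h1 w]
  let θ : MonoidAlgebra ℝ N → MonoidAlgebra ℝ N → Prop := fun μ ν =>
    μ ∈ D N ∧ ν ∈ D N ∧ hat x μ = hat x ν ∧ hat y μ = hat y ν ∧ ∀ u, P u μ ↔ P u ν
  have hθ : IsCong θ := by
    refine ⟨fun _ h => ⟨h, h, rfl, rfl, fun _ => .rfl⟩,
      fun _ _ h => ⟨h.2.1, h.1, h.2.2.1.symm, h.2.2.2.1.symm, fun u => (h.2.2.2.2 u).symm⟩,
      fun _ _ _ h k => ⟨h.1, k.2.1, h.2.2.1.trans k.2.2.1, h.2.2.2.1.trans k.2.2.2.1,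
        fun u => (h.2.2.2.2 u).trans (k.2.2.2.2 u)⟩, ?_⟩
    rintro a a' c c' ⟨k1, k2, k3, k4, k5⟩ ⟨l1, l2, l3, l4, l5⟩
    refine ⟨⟨D_mul k1 l1, D_mul k2 l2, by rw [hat_mul' hx, hat_mul' hx, k3, l3],
      by rw [hat_mul' hy, hat_mul' hy, k4, l4], fun u => ?_⟩, fun r hr => ⟨D_mix k1 l1 hr,
      D_mix k2 l2 hr, by rw [hat_mix, hat_mix, k3, l3], by rw [hat_mix, hat_mix, k4, l4],
      fun u => by rw [P4 k1 l1 hr, P4 k2 l2 hr, k5, l5]⟩⟩
    rw [P2 k1 l1, forall₂_congr fun w _ => l5 (u * w), ← P2 k1 l2, P3 k1 l2,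
      forall₂_congr fun w _ => k5 (u * w), ← P3 k2 l2]
  have hRθ : ∀ q ∈ R, θ q.1 q.2 := fun q hq => by
    obtain ⟨k1, k2⟩ := hD q hq
    obtain ⟨ex, ey⟩ := (hk _ k1 _ k2).1 fun _ _ h => h q hq
    exact ⟨k1, k2, ex, ey, fun u => ⟨P5 k1 k2 ex ey fun w hw e => hn q hq ⟨w, .inl hw, e⟩,
      P5 k2 k1 ex.symm ey.symm fun w hw e => hn q hq ⟨w, .inr hw, e⟩⟩⟩
  have s2 : 0 < (1 + s) * (1 - s) := by nlinarith
  have s3 : 1 + s ≠ 0 := by linarith
  have s4 : 1 - s ≠ 0 := by linarith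
  have hr : s * (1 - 2 * s) / (2 * ((1 + s) * (1 - s))) ∈ Set.Icc (0 : ℝ) 1 :=
    ⟨div_nonneg (by nlinarith) (by linarith), (div_le_one (by linarith)).2 (by nlinarith)⟩
  have ht0 : 0 < s * (2 - s) / ((1 + s) * (1 - s)) := div_pos (by nlinarith) s2
  have ht : s * (2 - s) / ((1 + s) * (1 - s)) ∈ Set.Icc (0 : ℝ) 1 :=
    ⟨ht0.le, (div_le_one s2).2 (by nlinarith)⟩
  have := (((hk _ (D_mix d0 d2 hr) _ (D_mix d1 d3 ht)).2 ⟨by
    rw [hat_mix, hat_mix, e0.1, e1.1, e2.1, e3.1]; field, by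
    rw [hat_mix, hat_mix, e0.2, e1.2, e2.2, e3.2]; field⟩) θ hθ hRθ).2.2.2.2 1
  rw [P4 d0 d2 hr, P4 d1 d3 ht, P1 d0, P1 d2] at this
  have := (this.1 ⟨.inr fun w hw => .inl (by simpa using extreme d0 h2 e0.1 e0.2 w hw),
    .inr fun w hw => .inr (by simpa using extreme d2 h2 e2.1 e2.2 w hw)⟩).1.resolve_left ht0.ne'
  refine one_ne_zero ((hat_const d1 fun w hw => if_neg ?_).symm.trans this)
  rw [one_mul, (extreme d1 h2 e1.1 e1.2 w hw).1]
  rintro (e | e) <;> linarith [e.1]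

theorem result : ∃ L : FreeMonoid Unit → ℝ, PFA L ∧
    ¬ ∃ (g : ℕ) (R : Set (MonoidAlgebra ℝ (FreeMonoid (Fin g)) × MonoidAlgebra ℝ (FreeMonoid (Fin g))))
      (φ : MonoidAlgebra ℝ (FreeMonoid (Fin g)) → MonoidAlgebra ℝ (FreeMonoid Unit)),
      R.Finite ∧ (∀ q ∈ R, q.1 ∈ D _ ∧ q.2 ∈ D _) ∧ Iso (Gen R) (Syn L) φ := by
  refine ⟨L, pfa, fun ⟨g, R, φ, hR, hD, hφ, _, hs, h⟩ => ?_⟩
  simp only [syn_iff, hat_mix, hat_mul' (p_mul _)] at hs h
  have a1 := fun μ hμ => affine (μ := μ) (F := fun x => hat (p (1 / 2)) (φ x))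
    (fun x hx y hy r hr => ((h x hx y hy).2.2 r hr).1) hμ
  have a2 := fun μ hμ => affine (μ := μ) (F := fun x => hat (p (1 / 4)) (φ x))
    (fun x hx y hy r hr => ((h x hx y hy).2.2 r hr).2) hμ
  have b0 (c : ℝ) (hc : 0 ≤ c) (w) : 0 ≤ hat (p c) (φ (single w 1)) :=
    hat_nonneg (hφ _ (D_single w)).1 fun _ => pow_nonneg hc _
  have b1 (c : ℝ) (hc : 0 ≤ c) (hc' : c ≤ 1) (w) : hat (p c) (φ (single w 1)) ≤ 1 := by
    have := hat_nonneg (f := fun u => 1 * 1 + -1 * p c u) (hφ _ (D_single w)).1 fun u => by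
      have : p c u ≤ 1 := pow_le_one₀ hc hc'
      linarith
    rw [hat_lin, hat_one (hφ _ (D_single w))] at this
    linarith
  refine core R hR hD (fun w => hat (p (1 / 2)) (φ (single w 1)))
    (fun w => hat (p (1 / 4)) (φ (single w 1)))
    (fun w w' => by simpa [single_mul_single] using (h _ (D_single w) _ (D_single w')).2.1.1)
    (fun w w' => by simpa [single_mul_single] using (h _ (D_single w) _ (D_single w')).2.1.2)
    (b0 _ (by norm_num)) (b1 _ (by norm_num) (by norm_num)) (fun w => ?_) (fun n => ?_) fun μ hμ ν hν => ?_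
  · have := hat_nonneg (hφ _ (D_single w)).1 fun u => add_nonneg (sub_nonneg.2 (p_sq u).le)
      (sq_nonneg (p (1 / 2) u - hat (p (1 / 2)) (φ (single w 1))))
    rw [var (hφ _ (D_single w))] at this
    linarith
  · obtain ⟨μ, hμ, e⟩ := hs _ (D_single (.ofList (List.replicate n ())))
    refine ⟨μ, hμ, ?_⟩
    rw [← a1 μ hμ, ← a2 μ hμ, e.1, e.2, hat_single, hat_single, ← p_sq]
    simp [p, FreeMonoid.length]
  · rw [← a1 μ hμ, ← a2 μ hμ, ← a1 ν hν, ← a2 ν hν]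
    exact (h μ hμ ν hν).1

end Pool.Agent.Results.MP_492578_lc.NotFP
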